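import Pool.Agent.R993.RR.Defs

/-!
Piece St2b: the piecewise linear entry lemma.  The case tree and the linear certificates were
found with an exact linear programming search.
-/

set_option autoImplicit false

namespace Pool.Agent.R993.RR

set_option linter.unusedVariables false in
theorem st2b_core (l : ℕ → ℝ) (h : ∀ n, -1664 ≤ l n) (i2 : l 2 ≤ -1657)
    (a : ∀ n, l (n + 2) - l n ≤ l (n + 3))
    (s : ∀ n, (l (n + 2) - l n ≤ -1664 ∧ l (n + 3) ≤ -1663) ∨
      (-1664 ≤ l (n + 2) - l n ∧ l (n + 3) ≤ l (n + 2) - l n + 1))
    (G : ∀ n, -1864 < l (n + 2) - l n ∨ -1864 < l (n + 3) - l (n + 1)) : False := by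
  have h0 : -1664 ≤ l 0 := h 0
  have h1 : -1664 ≤ l 1 := h 1
  have h2 : -1664 ≤ l 2 := h 2
  have h3 : -1664 ≤ l 3 := h 3
  have h4 : -1664 ≤ l 4 := h 4
  have h5 : -1664 ≤ l 5 := h 5
  have h6 : -1664 ≤ l 6 := h 6
  have h7 : -1664 ≤ l 7 := h 7
  have h8 : -1664 ≤ l 8 := h 8
  have h9 : -1664 ≤ l 9 := h 9
  have h10 : -1664 ≤ l 10 := h 10
  have h11 : -1664 ≤ l 11 := h 11
  have h12 : -1664 ≤ l 12 := h 12
  have h13 : -1664 ≤ l 13 := h 13
  have h14 : -1664 ≤ l 14 := h 14
  have h15 : -1664 ≤ l 15 := h 15
  have h16 : -1664 ≤ l 16 := h 16
  have h17 : -1664 ≤ l 17 := h 17
  have h18 : -1664 ≤ l 18 := h 18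
  have h19 : -1664 ≤ l 19 := h 19
  have h20 : -1664 ≤ l 20 := h 20
  have a0 : l 2 - l 0 ≤ l 3 := a 0
  have a1 : l 3 - l 1 ≤ l 4 := a 1
  have a2 : l 4 - l 2 ≤ l 5 := a 2
  have a3 : l 5 - l 3 ≤ l 6 := a 3
  have a4 : l 6 - l 4 ≤ l 7 := a 4
  have a5 : l 7 - l 5 ≤ l 8 := a 5
  have a6 : l 8 - l 6 ≤ l 9 := a 6
  have a7 : l 9 - l 7 ≤ l 10 := a 7
  have a8 : l 10 - l 8 ≤ l 11 := a 8
  have a9 : l 11 - l 9 ≤ l 12 := a 9
  have a10 : l 12 - l 10 ≤ l 13 := a 10
  have a11 : l 13 - l 11 ≤ l 14 := a 11
  have a12 : l 14 - l 12 ≤ l 15 := a 12
  have a13 : l 15 - l 13 ≤ l 16 := a 13
  have a14 : l 16 - l 14 ≤ l 17 := a 14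
  have a15 : l 17 - l 15 ≤ l 18 := a 15
  have a16 : l 18 - l 16 ≤ l 19 := a 16
  have a17 : l 19 - l 17 ≤ l 20 := a 17
  have s0 : (l 2 - l 0 ≤ -1664 ∧ l 3 ≤ -1663) ∨
      (-1664 ≤ l 2 - l 0 ∧ l 3 ≤ l 2 - l 0 + 1) := s 0
  have s1 : (l 3 - l 1 ≤ -1664 ∧ l 4 ≤ -1663) ∨
      (-1664 ≤ l 3 - l 1 ∧ l 4 ≤ l 3 - l 1 + 1) := s 1
  have s2 : (l 4 - l 2 ≤ -1664 ∧ l 5 ≤ -1663) ∨
      (-1664 ≤ l 4 - l 2 ∧ l 5 ≤ l 4 - l 2 + 1) := s 2
  have s3 : (l 5 - l 3 ≤ -1664 ∧ l 6 ≤ -1663) ∨
      (-1664 ≤ l 5 - l 3 ∧ l 6 ≤ l 5 - l 3 + 1) := s 3
  have s4 : (l 6 - l 4 ≤ -1664 ∧ l 7 ≤ -1663) ∨
      (-1664 ≤ l 6 - l 4 ∧ l 7 ≤ l 6 - l 4 + 1) := s 4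
  have s5 : (l 7 - l 5 ≤ -1664 ∧ l 8 ≤ -1663) ∨
      (-1664 ≤ l 7 - l 5 ∧ l 8 ≤ l 7 - l 5 + 1) := s 5
  have s6 : (l 8 - l 6 ≤ -1664 ∧ l 9 ≤ -1663) ∨
      (-1664 ≤ l 8 - l 6 ∧ l 9 ≤ l 8 - l 6 + 1) := s 6
  have s7 : (l 9 - l 7 ≤ -1664 ∧ l 10 ≤ -1663) ∨
      (-1664 ≤ l 9 - l 7 ∧ l 10 ≤ l 9 - l 7 + 1) := s 7
  have s8 : (l 10 - l 8 ≤ -1664 ∧ l 11 ≤ -1663) ∨
      (-1664 ≤ l 10 - l 8 ∧ l 11 ≤ l 10 - l 8 + 1) := s 8
  have s9 : (l 11 - l 9 ≤ -1664 ∧ l 12 ≤ -1663) ∨
      (-1664 ≤ l 11 - l 9 ∧ l 12 ≤ l 11 - l 9 + 1) := s 9
  have s10 : (l 12 - l 10 ≤ -1664 ∧ l 13 ≤ -1663) ∨
      (-1664 ≤ l 12 - l 10 ∧ l 13 ≤ l 12 - l 10 + 1) := s 10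
  have s11 : (l 13 - l 11 ≤ -1664 ∧ l 14 ≤ -1663) ∨
      (-1664 ≤ l 13 - l 11 ∧ l 14 ≤ l 13 - l 11 + 1) := s 11
  have s12 : (l 14 - l 12 ≤ -1664 ∧ l 15 ≤ -1663) ∨
      (-1664 ≤ l 14 - l 12 ∧ l 15 ≤ l 14 - l 12 + 1) := s 12
  have s13 : (l 15 - l 13 ≤ -1664 ∧ l 16 ≤ -1663) ∨
      (-1664 ≤ l 15 - l 13 ∧ l 16 ≤ l 15 - l 13 + 1) := s 13
  have s14 : (l 16 - l 14 ≤ -1664 ∧ l 17 ≤ -1663) ∨
      (-1664 ≤ l 16 - l 14 ∧ l 17 ≤ l 16 - l 14 + 1) := s 14
  have s15 : (l 17 - l 15 ≤ -1664 ∧ l 18 ≤ -1663) ∨
      (-1664 ≤ l 17 - l 15 ∧ l 18 ≤ l 17 - l 15 + 1) := s 15
  have s16 : (l 18 - l 16 ≤ -1664 ∧ l 19 ≤ -1663) ∨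
      (-1664 ≤ l 18 - l 16 ∧ l 19 ≤ l 18 - l 16 + 1) := s 16
  have s17 : (l 19 - l 17 ≤ -1664 ∧ l 20 ≤ -1663) ∨
      (-1664 ≤ l 19 - l 17 ∧ l 20 ≤ l 19 - l 17 + 1) := s 17
  have G0 : -1864 < l 2 - l 0 ∨ -1864 < l 3 - l 1 := G 0
  have G1 : -1864 < l 3 - l 1 ∨ -1864 < l 4 - l 2 := G 1
  have G2 : -1864 < l 4 - l 2 ∨ -1864 < l 5 - l 3 := G 2
  have G3 : -1864 < l 5 - l 3 ∨ -1864 < l 6 - l 4 := G 3
  have G4 : -1864 < l 6 - l 4 ∨ -1864 < l 7 - l 5 := G 4
  have G5 : -1864 < l 7 - l 5 ∨ -1864 < l 8 - l 6 := G 5
  have G6 : -1864 < l 8 - l 6 ∨ -1864 < l 9 - l 7 := G 6
  have G7 : -1864 < l 9 - l 7 ∨ -1864 < l 10 - l 8 := G 7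
  have G8 : -1864 < l 10 - l 8 ∨ -1864 < l 11 - l 9 := G 8
  have G9 : -1864 < l 11 - l 9 ∨ -1864 < l 12 - l 10 := G 9
  have G10 : -1864 < l 12 - l 10 ∨ -1864 < l 13 - l 11 := G 10
  have G11 : -1864 < l 13 - l 11 ∨ -1864 < l 14 - l 12 := G 11
  have G12 : -1864 < l 14 - l 12 ∨ -1864 < l 15 - l 13 := G 12
  have G13 : -1864 < l 15 - l 13 ∨ -1864 < l 16 - l 14 := G 13
  have G14 : -1864 < l 16 - l 14 ∨ -1864 < l 17 - l 15 := G 14
  have G15 : -1864 < l 17 - l 15 ∨ -1864 < l 18 - l 16 := G 15
  have G16 : -1864 < l 18 - l 16 ∨ -1864 < l 19 - l 17 := G 16
  have G17 : -1864 < l 19 - l 17 ∨ -1864 < l 20 - l 18 := G 17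
  have G18 : -1864 < l 20 - l 18 ∨ -1864 < l 21 - l 19 := G 18
  clear h a s G
  rcases s0 with ⟨c0, e0⟩ | ⟨c0, e0⟩
  · rcases G0 with g0 | g1
    · rcases s1 with ⟨c1, e1⟩ | ⟨c1, e1⟩
      · rcases s2 with ⟨c2, e2⟩ | ⟨c2, e2⟩
        · linarith only [i2, c2, h4]
        · rcases s3 with ⟨c3, e3⟩ | ⟨c3, e3⟩
          · linarith only [e0, c3, h5]
          · rcases s4 with ⟨c4, e4⟩ | ⟨c4, e4⟩
            · linarith only [i2, e0, a2, a3, c4]
            · rcases s5 with ⟨c5, e5⟩ | ⟨c5, e5⟩
              · linarith only [e0, e1, a3, a4, c5]
              · rcases s6 with ⟨c6, e6⟩ | ⟨c6, e6⟩
                · linarith only [e1, e2, a4, a5, c6, h2]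
                · rcases s7 with ⟨c7, e7⟩ | ⟨c7, e7⟩
                  · rcases s8 with ⟨c8, e8⟩ | ⟨c8, e8⟩
                    · rcases G8 with g | g
                      · linarith only [g, e0, e1, a3, a4, a5, e7]
                      · linarith only [g, e1, e2, a4, a5, a6, e8, h2]
                    · linarith only [e0, e1, a3, a4, a5, e7, c8]
                  · rcases s8 with ⟨c8, e8⟩ | ⟨c8, e8⟩
                    · rcases G8 with g | g
                      · linarith only [g, i2, e0, a2, a3, a4, e6, e7, h4]
                      · linarith only [g, e0, e1, a3, a4, a5, a6, c7, e8]
                    · linarith only [i2, e0, a2, a3, a4, e6, e7, c8, h4]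
      · rcases s2 with ⟨c2, e2⟩ | ⟨c2, e2⟩
        · linarith only [i2, c2, h4]
        · rcases s3 with ⟨c3, e3⟩ | ⟨c3, e3⟩
          · linarith only [e0, c3, h5]
          · rcases s4 with ⟨c4, e4⟩ | ⟨c4, e4⟩
            · linarith only [i2, e0, a2, a3, c4]
            · rcases s5 with ⟨c5, e5⟩ | ⟨c5, e5⟩
              · linarith only [e0, e1, a3, a4, c5, h1]
              · rcases s6 with ⟨c6, e6⟩ | ⟨c6, e6⟩
                · rcases s7 with ⟨c7, e7⟩ | ⟨c7, e7⟩
                  · rcases G7 with g | g
                    · linarith only [g, e0, e1, a3, a4, a5, c6, e6, h1]
                    · linarith only [g, e0, e1, a3, a4, a5, e7, h1]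
                  · linarith only [i2, e0, a2, a3, a4, e6, c7]
                · rcases s7 with ⟨c7, e7⟩ | ⟨c7, e7⟩
                  · rcases G7 with g7 | g8
                    · rcases s8 with ⟨c8, e8⟩ | ⟨c8, e8⟩
                      · rcases G8 with g | g
                        · linarith only [g, i2, e0, a2, a3, a4, a5, e6, e7, g7]
                        · linarith only [g, i2, e0, a2, a3, a4, g7, e8]
                      · linarith only [i2, e0, a2, a3, a4, a5, e6, e7, g7, c8]
                    · linarith only [i2, e0, a2, a3, a4, a5, c6, e7, g8]
                  · rcases s8 with ⟨c8, e8⟩ | ⟨c8, e8⟩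
                    · rcases G8 with g | g
                      · linarith only [g, i2, e0, c1, a1, a2, a3, a4, e6, e7]
                      · linarith only [g, i2, e0, a2, a3, a4, c7, e8]
                    · linarith only [i2, e0, a2, a3, a4, e6, e7, c8, h4]
    · rcases s1 with ⟨c1, e1⟩ | ⟨c1, e1⟩
      · rcases s2 with ⟨c2, e2⟩ | ⟨c2, e2⟩
        · linarith only [i2, c2, h4]
        · rcases s3 with ⟨c3, e3⟩ | ⟨c3, e3⟩
          · linarith only [e0, c3, h5]
          · rcases s4 with ⟨c4, e4⟩ | ⟨c4, e4⟩
            · linarith only [i2, e0, a2, a3, c4]
            · rcases s5 with ⟨c5, e5⟩ | ⟨c5, e5⟩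
              · linarith only [e0, e1, a3, a4, c5]
              · rcases s6 with ⟨c6, e6⟩ | ⟨c6, e6⟩
                · linarith only [e1, e2, a4, a5, c6, h2]
                · rcases s7 with ⟨c7, e7⟩ | ⟨c7, e7⟩
                  · rcases s8 with ⟨c8, e8⟩ | ⟨c8, e8⟩
                    · rcases G8 with g | g
                      · linarith only [g, e0, e1, a3, a4, a5, e7]
                      · linarith only [g, e1, e2, a4, a5, a6, e8, h2]
                    · linarith only [e0, e1, a3, a4, a5, e7, c8]
                  · rcases s8 with ⟨c8, e8⟩ | ⟨c8, e8⟩
                    · rcases G8 with g | g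
                      · linarith only [g, i2, e0, a2, a3, a4, e6, e7, h4]
                      · linarith only [g, e0, e1, a3, a4, a5, a6, c7, e8]
                    · linarith only [i2, e0, a2, a3, a4, e6, e7, c8, h4]
      · rcases s2 with ⟨c2, e2⟩ | ⟨c2, e2⟩
        · linarith only [i2, c2, h4]
        · rcases s3 with ⟨c3, e3⟩ | ⟨c3, e3⟩
          · linarith only [e0, c3, h5]
          · rcases s4 with ⟨c4, e4⟩ | ⟨c4, e4⟩
            · linarith only [i2, e0, a2, a3, c4]
            · rcases s5 with ⟨c5, e5⟩ | ⟨c5, e5⟩
              · linarith only [e0, e1, a3, a4, c5, h1]
              · rcases s6 with ⟨c6, e6⟩ | ⟨c6, e6⟩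
                · rcases s7 with ⟨c7, e7⟩ | ⟨c7, e7⟩
                  · rcases G7 with g | g
                    · linarith only [g, e0, e1, a3, a4, a5, c6, e6, h1]
                    · linarith only [g, e0, e1, a3, a4, a5, e7, h1]
                  · linarith only [i2, e0, a2, a3, a4, e6, c7]
                · rcases s7 with ⟨c7, e7⟩ | ⟨c7, e7⟩
                  · rcases G7 with g7 | g8
                    · rcases s8 with ⟨c8, e8⟩ | ⟨c8, e8⟩
                      · rcases G8 with g | g
                        · linarith only [g, i2, e0, a2, a3, a4, a5, e6, e7, g7]
                        · linarith only [g, i2, e0, a2, a3, a4, g7, e8]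
                      · linarith only [i2, e0, a2, a3, a4, a5, e6, e7, g7, c8]
                    · linarith only [i2, e0, a2, a3, a4, a5, c6, e7, g8]
                  · rcases s8 with ⟨c8, e8⟩ | ⟨c8, e8⟩
                    · rcases G8 with g | g
                      · linarith only [g, i2, e0, c1, a1, a2, a3, a4, e6, e7]
                      · linarith only [g, i2, e0, a2, a3, a4, c7, e8]
                    · linarith only [i2, e0, a2, a3, a4, e6, e7, c8, h4]
  · rcases s1 with ⟨c1, e1⟩ | ⟨c1, e1⟩
    · rcases s2 with ⟨c2, e2⟩ | ⟨c2, e2⟩
      · linarith only [i2, c2, h4]
      · rcases s3 with ⟨c3, e3⟩ | ⟨c3, e3⟩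
        · linarith only [i2, e0, a2, c3, h0, h4]
        · rcases s4 with ⟨c4, e4⟩ | ⟨c4, e4⟩
          · linarith only [e1, c4, h6]
          · rcases s5 with ⟨c5, e5⟩ | ⟨c5, e5⟩
            · linarith only [i2, e0, e1, a3, a4, c5, h0]
            · rcases s6 with ⟨c6, e6⟩ | ⟨c6, e6⟩
              · linarith only [e1, e2, a4, a5, c6, h2]
              · rcases s7 with ⟨c7, e7⟩ | ⟨c7, e7⟩
                · rcases s8 with ⟨c8, e8⟩ | ⟨c8, e8⟩
                  · rcases G8 with g | g
                    · linarith only [g, e1, e2, a4, a5, a6, c7, e7, h2]
                    · linarith only [g, e1, e2, a4, a5, a6, e8, h2]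
                  · linarith only [e1, e2, a4, a5, a6, c7, e7, c8, h2]
                · rcases s8 with ⟨c8, e8⟩ | ⟨c8, e8⟩
                  · rcases G8 with g8 | g9
                    · rcases s9 with ⟨c9, e9⟩ | ⟨c9, e9⟩
                      · rcases s10 with ⟨c10, e10⟩ | ⟨c10, e10⟩
                        · rcases s11 with ⟨c11, e11⟩ | ⟨c11, e11⟩
                          · linarith only [e8, c11, h13]
                          · rcases s12 with ⟨c12, e12⟩ | ⟨c12, e12⟩
                            · linarith only [e8, e9, a11, c12, h13]
                            · rcases s13 with ⟨c13, e13⟩ | ⟨c13, e13⟩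
                              · linarith only [e8, e9, a11, a12, c13]
                              · rcases s14 with ⟨c14, e14⟩ | ⟨c14, e14⟩
                                · linarith only [e9, e10, a12, a13, c14]
                                · rcases s15 with ⟨c15, e15⟩ | ⟨c15, e15⟩
                                  · linarith only [e10, e11, a13, a14, c15, h11]
                                  · rcases s16 with ⟨c16, e16⟩ | ⟨c16, e16⟩
                                    · rcases s17 with ⟨c17, e17⟩ | ⟨c17, e17⟩
                                      · rcases G17 with g | g
                                        · linarith only [g, e9, e10, a12, a13, a14, e16]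
                                        · linarith only [g, e10, e11, a13, a14, a15, e17, h11]
                                      · linarith only [e9, e10, a12, a13, a14, e16, c17]
                                    · rcases s17 with ⟨c17, e17⟩ | ⟨c17, e17⟩
                                      · rcases G17 with g | g
                                        · linarith only [g, e8, e9, a11, a12, a13, e15, e16, h13]
                                        · linarith only [g, e9, e10, a12, a13, a14, a15, c16, e17]
                                      · linarith only [e8, e9, a11, a12, a13, e15, e16, c17, h13]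
                        · rcases s11 with ⟨c11, e11⟩ | ⟨c11, e11⟩
                          · linarith only [e8, c11, h13]
                          · rcases s12 with ⟨c12, e12⟩ | ⟨c12, e12⟩
                            · linarith only [e8, e9, a11, c12, h13]
                            · rcases s13 with ⟨c13, e13⟩ | ⟨c13, e13⟩
                              · linarith only [e8, e9, a11, a12, c13]
                              · rcases s14 with ⟨c14, e14⟩ | ⟨c14, e14⟩
                                · linarith only [e9, e10, a12, a13, c14, h10]
                                · rcases s15 with ⟨c15, e15⟩ | ⟨c15, e15⟩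
                                  · linarith only [e1, e2, a4, a5, a6, a7, g8, e9, e10, e11, a13, a14, c15, h2, h11]
                                  · rcases s16 with ⟨c16, e16⟩ | ⟨c16, e16⟩
                                    · rcases G16 with g16 | g17
                                      · rcases s17 with ⟨c17, e17⟩ | ⟨c17, e17⟩
                                        · rcases G17 with g | g
                                          · linarith only [g, e8, e9, a11, a12, a13, a14, e15, e16, g16]
                                          · linarith only [g, e8, e9, a11, a12, a13, g16, e17]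
                                        · linarith only [e8, e9, a11, a12, a13, a14, e15, e16, g16, c17]
                                      · linarith only [e8, e9, a11, a12, a13, a14, c15, e16, g17]
                                    · rcases s17 with ⟨c17, e17⟩ | ⟨c17, e17⟩
                                      · rcases G17 with g | g
                                        · linarith only [g, e8, e9, c10, a10, a11, a12, a13, e15, e16]
                                        · linarith only [g, e8, e9, a11, a12, a13, c16, e17]
                                      · linarith only [e8, e9, a11, a12, a13, e15, e16, c17, h13]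
                      · linarith only [e1, e2, a4, a5, a6, e8, c9, h2]
                    · linarith only [e1, e2, a4, a5, a6, e8, g9, h2]
                  · rcases s9 with ⟨c9, e9⟩ | ⟨c9, e9⟩
                    · rcases s10 with ⟨c10, e10⟩ | ⟨c10, e10⟩
                      · rcases s11 with ⟨c11, e11⟩ | ⟨c11, e11⟩
                        · linarith only [i2, e0, a2, a3, a4, e6, e7, e8, c11, h0, h4, h13]
                        · rcases s12 with ⟨c12, e12⟩ | ⟨c12, e12⟩
                          · linarith only [e9, c12, h14]
                          · rcases s13 with ⟨c13, e13⟩ | ⟨c13, e13⟩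
                            · linarith only [e9, e10, a12, c13, h14]
                            · rcases s14 with ⟨c14, e14⟩ | ⟨c14, e14⟩
                              · linarith only [e9, e10, a12, a13, c14]
                              · rcases s15 with ⟨c15, e15⟩ | ⟨c15, e15⟩
                                · linarith only [e10, e11, a13, a14, c15, h11]
                                · rcases s16 with ⟨c16, e16⟩ | ⟨c16, e16⟩
                                  · rcases s17 with ⟨c17, e17⟩ | ⟨c17, e17⟩
                                    · rcases G17 with g | g
                                      · linarith only [g, e9, e10, a12, a13, a14, e16]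
                                      · linarith only [g, e10, e11, a13, a14, a15, e17, h11]
                                    · linarith only [e9, e10, a12, a13, a14, e16, c17]
                                  · rcases s17 with ⟨c17, e17⟩ | ⟨c17, e17⟩
                                    · rcases G17 with g | g
                                      · linarith only [g, i2, e0, a2, a3, a4, e6, e7, e8, e9, a11, a12, a13, e15, e16, h0, h4, h13]
                                      · linarith only [g, e9, e10, a12, a13, a14, a15, c16, e17]
                                    · linarith only [i2, e0, a2, a3, a4, e6, e7, e8, e9, a11, a12, a13, e15, e16, c17, h0, h4, h13]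
                      · rcases s11 with ⟨c11, e11⟩ | ⟨c11, e11⟩
                        · linarith only [i2, e0, a3, a5, e6, a7, e8, c9, e9, c10, c11, h0, h13]
                        · rcases s12 with ⟨c12, e12⟩ | ⟨c12, e12⟩
                          · linarith only [e9, c12, h14]
                          · rcases s13 with ⟨c13, e13⟩ | ⟨c13, e13⟩
                            · linarith only [e0, e2, a3, e4, a5, e6, a7, e8, c9, e9, e10, a11, a12, c13, h0, h14]
                            · rcases s14 with ⟨c14, e14⟩ | ⟨c14, e14⟩
                              · linarith only [e9, e10, a12, a13, c14, h10]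
                              · rcases s15 with ⟨c15, e15⟩ | ⟨c15, e15⟩
                                · linarith only [e1, e2, a4, a5, a6, a7, c8, e9, e10, e11, a13, a14, c15, h2, h11]
                                · rcases s16 with ⟨c16, e16⟩ | ⟨c16, e16⟩
                                  · rcases s17 with ⟨c17, e17⟩ | ⟨c17, e17⟩
                                    · rcases G17 with g | g
                                      · linarith only [g, e0, e1, e2, a3, a4, a5, a6, a7, c8, e9, e10, a12, a13, a14, e16, h0]
                                      · linarith only [g, e0, e1, e2, a3, a4, a5, a6, a7, c8, a8, e9, e10, e11, a13, a14, a15, e17, h0]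
                                    · linarith only [e0, e1, e2, a3, a4, a5, a6, a7, e8, e9, e10, a11, a12, a13, a14, c15, e16, c17, h0]
                                  · rcases s17 with ⟨c17, e17⟩ | ⟨c17, e17⟩
                                    · rcases G17 with g | g
                                      · linarith only [g, e0, e1, e2, a3, a4, a5, a6, a7, e8, e9, c10, a10, a11, a12, a13, e15, e16, h0]
                                      · linarith only [g, e0, e1, e2, a3, a4, a5, a6, a7, e8, e9, e10, a11, a12, a13, a14, a15, c16, e17, h0]
                                    · linarith only [i2, e0, e1, a3, a4, a5, e8, e9, c10, a11, a12, a13, e15, e16, c17, h0, h13]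
                    · linarith only [i2, e0, e1, a2, a3, a4, a5, e7, e8, c9, h0]
    · rcases s2 with ⟨c2, e2⟩ | ⟨c2, e2⟩
      · linarith only [i2, c2, h4]
      · rcases s3 with ⟨c3, e3⟩ | ⟨c3, e3⟩
        · linarith only [i2, e0, a2, c3, h0, h4]
        · rcases s4 with ⟨c4, e4⟩ | ⟨c4, e4⟩
          · linarith only [i2, e0, a2, a3, c4, h0]
          · rcases s5 with ⟨c5, e5⟩ | ⟨c5, e5⟩
            · rcases s6 with ⟨c6, e6⟩ | ⟨c6, e6⟩
              · rcases G6 with g | g
                · linarith only [g, i2, e0, a2, a3, a4, c5, e5, h0]
                · linarith only [g, i2, e0, a2, a3, a4, e6, h0]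
              · linarith only [i2, e0, a2, a3, a4, c5, e5, c6, h0]
            · rcases s6 with ⟨c6, e6⟩ | ⟨c6, e6⟩
              · rcases G6 with g6 | g7
                · rcases s7 with ⟨c7, e7⟩ | ⟨c7, e7⟩
                  · rcases G7 with g7 | g8
                    · linarith only [i2, e0, a2, a3, a4, e6, g7, h0]
                    · rcases s8 with ⟨c8, e8⟩ | ⟨c8, e8⟩
                      · rcases s9 with ⟨c9, e9⟩ | ⟨c9, e9⟩
                        · linarith only [e6, c9, h11]
                        · rcases s10 with ⟨c10, e10⟩ | ⟨c10, e10⟩
                          · linarith only [e6, e7, a9, c10, h11]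
                          · rcases s11 with ⟨c11, e11⟩ | ⟨c11, e11⟩
                            · linarith only [e6, e7, a9, a10, c11]
                            · rcases s12 with ⟨c12, e12⟩ | ⟨c12, e12⟩
                              · linarith only [e7, e8, a10, a11, c12]
                              · rcases s13 with ⟨c13, e13⟩ | ⟨c13, e13⟩
                                · linarith only [e8, e9, a11, a12, c13, h9]
                                · rcases s14 with ⟨c14, e14⟩ | ⟨c14, e14⟩
                                  · rcases s15 with ⟨c15, e15⟩ | ⟨c15, e15⟩
                                    · rcases G15 with g | g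
                                      · linarith only [g, e7, e8, a10, a11, a12, e14]
                                      · linarith only [g, e8, e9, a11, a12, a13, e15, h9]
                                    · linarith only [e7, e8, a10, a11, a12, e14, c15]
                                  · rcases s15 with ⟨c15, e15⟩ | ⟨c15, e15⟩
                                    · rcases G15 with g | g
                                      · linarith only [g, e6, e7, a9, a10, a11, e13, e14, h11]
                                      · linarith only [g, e7, e8, a10, a11, a12, a13, c14, e15]
                                    · linarith only [e6, e7, a9, a10, a11, e13, e14, c15, h11]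
                      · rcases s9 with ⟨c9, e9⟩ | ⟨c9, e9⟩
                        · linarith only [e6, c9, h11]
                        · rcases s10 with ⟨c10, e10⟩ | ⟨c10, e10⟩
                          · linarith only [e6, e7, a9, c10, h11]
                          · rcases s11 with ⟨c11, e11⟩ | ⟨c11, e11⟩
                            · linarith only [e6, e7, a9, a10, c11]
                            · rcases s12 with ⟨c12, e12⟩ | ⟨c12, e12⟩
                              · linarith only [e7, e8, a10, a11, c12, h8]
                              · rcases s13 with ⟨c13, e13⟩ | ⟨c13, e13⟩
                                · linarith only [i2, e0, a2, a3, a4, a5, g6, e7, e8, e9, a11, a12, c13, h0, h9]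
                                · rcases s14 with ⟨c14, e14⟩ | ⟨c14, e14⟩
                                  · rcases G14 with g14 | g15
                                    · rcases s15 with ⟨c15, e15⟩ | ⟨c15, e15⟩
                                      · rcases G15 with g | g
                                        · linarith only [g, e6, e7, a9, a10, a11, a12, e13, e14, g14]
                                        · linarith only [g, e6, e7, a9, a10, a11, g14, e15]
                                      · linarith only [e6, e7, a9, a10, a11, a12, e13, e14, g14, c15]
                                    · linarith only [e6, e7, a9, a10, a11, a12, c13, e14, g15]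
                                  · rcases s15 with ⟨c15, e15⟩ | ⟨c15, e15⟩
                                    · rcases G15 with g | g
                                      · linarith only [g, e6, e7, c8, a8, a9, a10, a11, e13, e14]
                                      · linarith only [g, e6, e7, a9, a10, a11, c14, e15]
                                    · linarith only [e6, e7, a9, a10, a11, e13, e14, c15, h11]
                  · linarith only [i2, e0, a2, a3, a4, e6, c7, h0]
                · linarith only [i2, e0, a2, a3, a4, e6, g7, h0]
              · rcases s7 with ⟨c7, e7⟩ | ⟨c7, e7⟩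
                · rcases G7 with g7 | g8
                  · rcases s8 with ⟨c8, e8⟩ | ⟨c8, e8⟩
                    · rcases G8 with g8 | g9
                      · linarith only [i2, e0, a2, a3, a4, a5, e6, e7, g7, g8, h0]
                      · rcases s9 with ⟨c9, e9⟩ | ⟨c9, e9⟩
                        · rcases s10 with ⟨c10, e10⟩ | ⟨c10, e10⟩
                          · linarith only [e7, c10, h12]
                          · rcases s11 with ⟨c11, e11⟩ | ⟨c11, e11⟩
                            · linarith only [e7, e8, a10, c11, h12]
                            · rcases s12 with ⟨c12, e12⟩ | ⟨c12, e12⟩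
                              · linarith only [e7, e8, a10, a11, c12]
                              · rcases s13 with ⟨c13, e13⟩ | ⟨c13, e13⟩
                                · linarith only [e8, e9, a11, a12, c13]
                                · rcases s14 with ⟨c14, e14⟩ | ⟨c14, e14⟩
                                  · linarith only [e9, e10, a12, a13, c14, h10]
                                  · rcases s15 with ⟨c15, e15⟩ | ⟨c15, e15⟩
                                    · rcases s16 with ⟨c16, e16⟩ | ⟨c16, e16⟩
                                      · rcases G16 with g | g
                                        · linarith only [g, e8, e9, a11, a12, a13, e15]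
                                        · linarith only [g, e9, e10, a12, a13, a14, e16, h10]
                                      · linarith only [e8, e9, a11, a12, a13, e15, c16]
                                    · rcases s16 with ⟨c16, e16⟩ | ⟨c16, e16⟩
                                      · rcases G16 with g | g
                                        · linarith only [g, e7, e8, a10, a11, a12, e14, e15, h12]
                                        · linarith only [g, e8, e9, a11, a12, a13, a14, c15, e16]
                                      · linarith only [e7, e8, a10, a11, a12, e14, e15, c16, h12]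
                        · rcases s10 with ⟨c10, e10⟩ | ⟨c10, e10⟩
                          · linarith only [e7, c10, h12]
                          · rcases s11 with ⟨c11, e11⟩ | ⟨c11, e11⟩
                            · linarith only [e7, e8, a10, c11, h12]
                            · rcases s12 with ⟨c12, e12⟩ | ⟨c12, e12⟩
                              · linarith only [e7, e8, a10, a11, c12]
                              · rcases s13 with ⟨c13, e13⟩ | ⟨c13, e13⟩
                                · linarith only [e8, e9, a11, a12, c13, h9]
                                · rcases s14 with ⟨c14, e14⟩ | ⟨c14, e14⟩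
                                  · linarith only [i2, a2, a4, e5, a6, g7, c8, e8, e9, e10, a12, a13, c14, h10]
                                  · rcases s15 with ⟨c15, e15⟩ | ⟨c15, e15⟩
                                    · rcases G15 with g15 | g16
                                      · rcases s16 with ⟨c16, e16⟩ | ⟨c16, e16⟩
                                        · rcases G16 with g | g
                                          · linarith only [g, e7, e8, a10, a11, a12, a13, e14, e15, g15]
                                          · linarith only [g, e7, e8, a10, a11, a12, g15, e16]
                                        · linarith only [e7, e8, a10, a11, a12, a13, e14, e15, g15, c16]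
                                      · linarith only [i2, a2, a4, e5, a6, g7, c8, e8, e9, a10, a11, a12, a13, c14, e15, g16]
                                    · rcases s16 with ⟨c16, e16⟩ | ⟨c16, e16⟩
                                      · rcases G16 with g | g
                                        · linarith only [g, e7, e8, a10, a11, a12, e14, e15, h12]
                                        · linarith only [g, e7, e8, a10, a11, a12, c15, e16]
                                      · linarith only [e7, e8, a10, a11, a12, e14, e15, c16, h12]
                    · linarith only [i2, e0, a2, a3, a4, a5, e6, e7, g7, c8, h0]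
                  · rcases s8 with ⟨c8, e8⟩ | ⟨c8, e8⟩
                    · rcases s9 with ⟨c9, e9⟩ | ⟨c9, e9⟩
                      · linarith only [e0, e2, a3, e4, a5, e6, c7, e7, g8, c9, h0, h11]
                      · rcases s10 with ⟨c10, e10⟩ | ⟨c10, e10⟩
                        · linarith only [e7, c10, h12]
                        · rcases s11 with ⟨c11, e11⟩ | ⟨c11, e11⟩
                          · linarith only [e7, e8, a10, c11, h12]
                          · rcases s12 with ⟨c12, e12⟩ | ⟨c12, e12⟩
                            · linarith only [e7, e8, a10, a11, c12]
                            · rcases s13 with ⟨c13, e13⟩ | ⟨c13, e13⟩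
                              · linarith only [e8, e9, a11, a12, c13, h9]
                              · rcases s14 with ⟨c14, e14⟩ | ⟨c14, e14⟩
                                · rcases s15 with ⟨c15, e15⟩ | ⟨c15, e15⟩
                                  · rcases G15 with g | g
                                    · linarith only [g, e7, e8, a10, a11, a12, e14]
                                    · linarith only [g, e8, e9, a11, a12, a13, e15, h9]
                                  · linarith only [e7, e8, a10, a11, a12, e14, c15]
                                · rcases s15 with ⟨c15, e15⟩ | ⟨c15, e15⟩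
                                  · rcases G15 with g | g
                                    · linarith only [g, i2, e0, a2, a3, a4, a5, e6, e7, g8, a9, a10, a11, e13, e14, h0, h11]
                                    · linarith only [g, e7, e8, a10, a11, a12, a13, c14, e15]
                                  · linarith only [i2, e0, a3, a5, e6, c7, e7, g8, a9, a10, a11, e13, e14, c15, h0, h11]
                    · rcases s9 with ⟨c9, e9⟩ | ⟨c9, e9⟩
                      · linarith only [e0, e2, a3, e4, a5, e6, c7, e7, c8, c9, h0, h11]
                      · rcases s10 with ⟨c10, e10⟩ | ⟨c10, e10⟩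
                        · linarith only [e7, c10, h12]
                        · rcases s11 with ⟨c11, e11⟩ | ⟨c11, e11⟩
                          · linarith only [e2, e4, a5, e6, c7, e7, e8, a9, a10, c11, h2, h12]
                          · rcases s12 with ⟨c12, e12⟩ | ⟨c12, e12⟩
                            · linarith only [e7, e8, a10, a11, c12, h8]
                            · rcases s13 with ⟨c13, e13⟩ | ⟨c13, e13⟩
                              · linarith only [i2, e0, a2, a3, a4, a5, c6, e7, e8, e9, a11, a12, c13, h0, h9]
                              · rcases s14 with ⟨c14, e14⟩ | ⟨c14, e14⟩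
                                · rcases s15 with ⟨c15, e15⟩ | ⟨c15, e15⟩
                                  · rcases G15 with g | g
                                    · linarith only [g, i2, e0, a2, a3, a4, a5, c6, e7, e8, a10, a11, a12, e14, h0]
                                    · linarith only [g, i2, e0, a2, a3, a4, a5, c6, a6, e7, e8, e9, a11, a12, a13, e15, h0]
                                  · linarith only [i2, e0, a2, a3, a4, a5, e6, e7, e8, a9, a10, a11, a12, c13, e14, c15, h0]
                                · rcases s15 with ⟨c15, e15⟩ | ⟨c15, e15⟩
                                  · rcases G15 with g | g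
                                    · linarith only [g, i2, e0, a2, a3, a4, a5, e6, e7, c8, a8, a9, a10, a11, e13, e14, h0]
                                    · linarith only [g, i2, e0, a2, a3, a4, a5, e6, e7, e8, a9, a10, a11, a12, a13, c14, e15, h0]
                                  · linarith only [i2, e0, a3, a5, e6, c7, e7, c8, a9, a10, a11, e13, e14, c15, h0, h11]
                · rcases s8 with ⟨c8, e8⟩ | ⟨c8, e8⟩
                  · rcases G8 with g8 | g9
                    · rcases s9 with ⟨c9, e9⟩ | ⟨c9, e9⟩
                      · rcases s10 with ⟨c10, e10⟩ | ⟨c10, e10⟩
                        · rcases s11 with ⟨c11, e11⟩ | ⟨c11, e11⟩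
                          · linarith only [e8, c11, h13]
                          · rcases s12 with ⟨c12, e12⟩ | ⟨c12, e12⟩
                            · linarith only [e8, e9, a11, c12, h13]
                            · rcases s13 with ⟨c13, e13⟩ | ⟨c13, e13⟩
                              · linarith only [e8, e9, a11, a12, c13]
                              · rcases s14 with ⟨c14, e14⟩ | ⟨c14, e14⟩
                                · linarith only [e9, e10, a12, a13, c14]
                                · rcases s15 with ⟨c15, e15⟩ | ⟨c15, e15⟩
                                  · linarith only [e10, e11, a13, a14, c15, h11]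
                                  · rcases s16 with ⟨c16, e16⟩ | ⟨c16, e16⟩
                                    · rcases s17 with ⟨c17, e17⟩ | ⟨c17, e17⟩
                                      · rcases G17 with g | g
                                        · linarith only [g, e9, e10, a12, a13, a14, e16]
                                        · linarith only [g, e10, e11, a13, a14, a15, e17, h11]
                                      · linarith only [e9, e10, a12, a13, a14, e16, c17]
                                    · rcases s17 with ⟨c17, e17⟩ | ⟨c17, e17⟩
                                      · rcases G17 with g | g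
                                        · linarith only [g, e8, e9, a11, a12, a13, e15, e16, h13]
                                        · linarith only [g, e9, e10, a12, a13, a14, a15, c16, e17]
                                      · linarith only [e8, e9, a11, a12, a13, e15, e16, c17, h13]
                        · rcases s11 with ⟨c11, e11⟩ | ⟨c11, e11⟩
                          · linarith only [e8, c11, h13]
                          · rcases s12 with ⟨c12, e12⟩ | ⟨c12, e12⟩
                            · linarith only [e8, e9, a11, c12, h13]
                            · rcases s13 with ⟨c13, e13⟩ | ⟨c13, e13⟩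
                              · linarith only [e8, e9, a11, a12, c13]
                              · rcases s14 with ⟨c14, e14⟩ | ⟨c14, e14⟩
                                · linarith only [e9, e10, a12, a13, c14, h10]
                                · rcases s15 with ⟨c15, e15⟩ | ⟨c15, e15⟩
                                  · linarith only [i2, e0, a3, a5, e6, a7, g8, c9, e9, e10, e11, a13, a14, c15, h0, h11]
                                  · rcases s16 with ⟨c16, e16⟩ | ⟨c16, e16⟩
                                    · rcases G16 with g16 | g17
                                      · rcases s17 with ⟨c17, e17⟩ | ⟨c17, e17⟩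
                                        · rcases G17 with g | g
                                          · linarith only [g, e8, e9, a11, a12, a13, a14, e15, e16, g16]
                                          · linarith only [g, e8, e9, a11, a12, a13, g16, e17]
                                        · linarith only [e8, e9, a11, a12, a13, a14, e15, e16, g16, c17]
                                      · linarith only [e8, e9, a11, a12, a13, a14, c15, e16, g17]
                                    · rcases s17 with ⟨c17, e17⟩ | ⟨c17, e17⟩
                                      · rcases G17 with g | g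
                                        · linarith only [g, e8, e9, c10, a10, a11, a12, a13, e15, e16]
                                        · linarith only [g, e8, e9, a11, a12, a13, c16, e17]
                                      · linarith only [e8, e9, a11, a12, a13, e15, e16, c17, h13]
                      · linarith only [i2, e0, a2, a3, a4, a5, e6, e7, e8, g8, c9, h0]
                    · rcases s9 with ⟨c9, e9⟩ | ⟨c9, e9⟩
                      · rcases s10 with ⟨c10, e10⟩ | ⟨c10, e10⟩
                        · linarith only [i2, a2, a4, e5, a6, e7, c8, e8, g9, c10, h12]
                        · rcases s11 with ⟨c11, e11⟩ | ⟨c11, e11⟩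
                          · linarith only [e8, c11, h13]
                          · rcases s12 with ⟨c12, e12⟩ | ⟨c12, e12⟩
                            · linarith only [e8, e9, a11, c12, h13]
                            · rcases s13 with ⟨c13, e13⟩ | ⟨c13, e13⟩
                              · linarith only [e8, e9, a11, a12, c13]
                              · rcases s14 with ⟨c14, e14⟩ | ⟨c14, e14⟩
                                · linarith only [e9, e10, a12, a13, c14, h10]
                                · rcases s15 with ⟨c15, e15⟩ | ⟨c15, e15⟩
                                  · rcases s16 with ⟨c16, e16⟩ | ⟨c16, e16⟩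
                                    · rcases G16 with g | g
                                      · linarith only [g, e8, e9, a11, a12, a13, e15]
                                      · linarith only [g, e9, e10, a12, a13, a14, e16, h10]
                                    · linarith only [e8, e9, a11, a12, a13, e15, c16]
                                  · rcases s16 with ⟨c16, e16⟩ | ⟨c16, e16⟩
                                    · rcases G16 with g | g
                                      · linarith only [g, i2, e0, a2, a3, a4, e7, e8, g9, a10, a11, a12, e14, e15, h0, h12]
                                      · linarith only [g, e8, e9, a11, a12, a13, a14, c15, e16]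
                                    · linarith only [i2, a2, a4, e5, a6, e7, c8, e8, g9, a10, a11, a12, e14, e15, c16, h12]
                      · rcases s10 with ⟨c10, e10⟩ | ⟨c10, e10⟩
                        · linarith only [i2, a2, a4, e5, a6, e7, c8, e8, c9, c10, h12]
                        · rcases s11 with ⟨c11, e11⟩ | ⟨c11, e11⟩
                          · linarith only [e8, c11, h13]
                          · rcases s12 with ⟨c12, e12⟩ | ⟨c12, e12⟩
                            · linarith only [i2, a2, a4, e5, a6, e7, c8, e8, e9, a10, a11, c12, h13]
                            · rcases s13 with ⟨c13, e13⟩ | ⟨c13, e13⟩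
                              · linarith only [e8, e9, a11, a12, c13, h9]
                              · rcases s14 with ⟨c14, e14⟩ | ⟨c14, e14⟩
                                · linarith only [i2, a2, a4, e5, a6, c7, c8, e8, e9, e10, a12, a13, c14, h10]
                                · rcases s15 with ⟨c15, e15⟩ | ⟨c15, e15⟩
                                  · rcases s16 with ⟨c16, e16⟩ | ⟨c16, e16⟩
                                    · rcases G16 with g | g
                                      · linarith only [g, i2, e0, a2, a3, a4, c7, e8, e9, a11, a12, a13, e15, h0]
                                      · linarith only [g, i2, e0, a2, a3, a4, c7, e8, e9, e10, a12, a13, a14, e16, h0, h10]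
                                    · linarith only [i2, a2, a4, e5, a6, e7, c8, e8, e9, a10, a11, a12, a13, c14, e15, c16]
                                  · rcases s16 with ⟨c16, e16⟩ | ⟨c16, e16⟩
                                    · rcases G16 with g | g
                                      · linarith only [g, i2, e0, a2, a3, a4, e7, e8, c9, a9, a10, a11, a12, e14, e15, h0]
                                      · linarith only [g, i2, e0, a2, a3, a4, e7, e8, e9, a10, a11, a12, a13, a14, c15, e16, h0]
                                    · linarith only [i2, a2, a4, e5, a6, e7, c8, e8, c9, a10, a11, a12, e14, e15, c16, h12]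
                  · rcases s9 with ⟨c9, e9⟩ | ⟨c9, e9⟩
                    · rcases s10 with ⟨c10, e10⟩ | ⟨c10, e10⟩
                      · rcases s11 with ⟨c11, e11⟩ | ⟨c11, e11⟩
                        · linarith only [i2, e0, a2, a3, a4, e6, e7, e8, c11, h0, h4, h13]
                        · rcases s12 with ⟨c12, e12⟩ | ⟨c12, e12⟩
                          · linarith only [e9, c12, h14]
                          · rcases s13 with ⟨c13, e13⟩ | ⟨c13, e13⟩
                            · linarith only [e9, e10, a12, c13, h14]
                            · rcases s14 with ⟨c14, e14⟩ | ⟨c14, e14⟩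
                              · linarith only [e9, e10, a12, a13, c14]
                              · rcases s15 with ⟨c15, e15⟩ | ⟨c15, e15⟩
                                · linarith only [e10, e11, a13, a14, c15, h11]
                                · rcases s16 with ⟨c16, e16⟩ | ⟨c16, e16⟩
                                  · rcases s17 with ⟨c17, e17⟩ | ⟨c17, e17⟩
                                    · rcases G17 with g | g
                                      · linarith only [g, e9, e10, a12, a13, a14, e16]
                                      · linarith only [g, e10, e11, a13, a14, a15, e17, h11]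
                                    · linarith only [e9, e10, a12, a13, a14, e16, c17]
                                  · rcases s17 with ⟨c17, e17⟩ | ⟨c17, e17⟩
                                    · rcases G17 with g | g
                                      · linarith only [g, i2, e0, c1, a1, a2, a3, a4, e6, e7, e8, e9, a11, a12, a13, e15, e16, h0, h13]
                                      · linarith only [g, e9, e10, a12, a13, a14, a15, c16, e17]
                                    · linarith only [i2, e0, a2, a3, a4, e6, e7, e8, e9, a11, a12, a13, e15, e16, c17, h0, h4, h13]
                      · rcases s11 with ⟨c11, e11⟩ | ⟨c11, e11⟩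
                        · linarith only [i2, e0, a3, a5, e6, a7, e8, c9, e9, c10, c11, h0, h13]
                        · rcases s12 with ⟨c12, e12⟩ | ⟨c12, e12⟩
                          · linarith only [e9, c12, h14]
                          · rcases s13 with ⟨c13, e13⟩ | ⟨c13, e13⟩
                            · linarith only [e0, e2, a3, e4, a5, e6, a7, e8, c9, e9, e10, a11, a12, c13, h0, h14]
                            · rcases s14 with ⟨c14, e14⟩ | ⟨c14, e14⟩
                              · linarith only [e9, e10, a12, a13, c14, h10]
                              · rcases s15 with ⟨c15, e15⟩ | ⟨c15, e15⟩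
                                · linarith only [i2, e0, a3, a5, e6, a7, c8, c9, e9, e10, e11, a13, a14, c15, h0, h11]
                                · rcases s16 with ⟨c16, e16⟩ | ⟨c16, e16⟩
                                  · rcases s17 with ⟨c17, e17⟩ | ⟨c17, e17⟩
                                    · rcases G17 with g | g
                                      · linarith only [g, i2, e0, a2, a3, a4, a5, e6, e7, c8, e9, e10, a12, a13, a14, e16, h0]
                                      · linarith only [g, i2, e0, a2, a3, a4, a5, e6, e7, c8, e9, e10, e11, a13, a14, a15, e17, h0, h11]
                                    · linarith only [e0, e2, a3, e4, a5, e6, a7, e8, c9, e9, e10, a11, a12, a13, a14, c15, e16, c17, h0]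
                                  · rcases s17 with ⟨c17, e17⟩ | ⟨c17, e17⟩
                                    · rcases G17 with g | g
                                      · linarith only [g, i2, e0, a2, a3, a4, a5, e6, e7, e8, e9, c10, a10, a11, a12, a13, e15, e16, h0]
                                      · linarith only [g, i2, e0, a2, a3, a4, a5, e6, e7, e8, e9, e10, a11, a12, a13, a14, a15, c16, e17, h0]
                                    · linarith only [i2, e0, a2, a3, a4, a5, e6, e7, e8, e9, c10, a11, a12, a13, e15, e16, c17, h0, h13]
                    · linarith only [i2, e0, a2, a3, a4, a5, e6, e7, c8, e8, c9, h0]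

/-- Piece St2b. -/
theorem st2b : St2b := by
  intro l h i2 a b
  have s : ∀ n, (l (n + 2) - l n ≤ -1664 ∧ l (n + 3) ≤ -1663) ∨
      (-1664 ≤ l (n + 2) - l n ∧ l (n + 3) ≤ l (n + 2) - l n + 1) := by
    intro n
    have hb := b n
    rcases le_total (l (n + 2) - l n) (-1664) with h1 | h1
    · left
      rw [max_eq_left h1] at hb
      exact ⟨h1, by linarith⟩
    · right
      rw [max_eq_right h1] at hb
      exact ⟨h1, hb⟩
  have key : ∃ N, l (N + 2) - l N ≤ -1864 ∧ l (N + 3) - l (N + 1) ≤ -1864 := by
    by_contra hcon
    push Not at hcon
    refine st2b_core l h i2 a s fun n => ?_
    by_cases h1 : l (n + 2) - l n ≤ -1864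
    · exact Or.inr (hcon n h1)
    · exact Or.inl (not_le.1 h1)
  obtain ⟨N, h1, h2⟩ := key
  refine ⟨N, h1, h2, ?_⟩
  have e1 : N + 1 + 2 = N + 3 := by ring
  have e2 : N + 1 + 3 = N + 4 := by ring
  have h3 := b (N + 1)
  rw [e1, e2, max_eq_left (by linarith)] at h3
  have h4 := h (N + 2)
  linarith

end Pool.Agent.R993.RR
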